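import Pool.Agent.Lib_helper99.OL.DefsAll
import Pool.Agent.Lib_helper58.KT.Final
import Pool.Agent.Lib_helper76.IT.Rem

/-!
# One Frobenius element: compactness and perturbation
-/

set_option autoImplicit false

namespace Pool.Agent.EFF

open NumberField Topology Polynomial
open Pool.Agent.TT Pool.Agent.TB Pool.Agent.TF Pool.Agent.RF Pool.Agent.TBL Pool.Agent.TU
open Pool.Agent.KT Pool.Agent.KP Pool.Agent.IT

theorem ofr_galois (L : Type) [Field L] [NumberField L] [Algebra L Qbar] : IsGalois L Qbar := by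
  have hac : Algebra.IsAlgebraic L Qbar := by
    have : Algebra.IsAlgebraic ℚ Qbar := AlgebraicClosure.isAlgebraic ℚ
    exact Algebra.IsAlgebraic.tower_top (K := ℚ) L
  have : Algebra.IsSeparable L Qbar := inferInstance
  have : Normal L Qbar := by
    have : IsAlgClosed Qbar := inferInstance
    have : IsAlgClosure L Qbar := ⟨this, hac⟩
    exact IsAlgClosure.normal L Qbar
  exact {}

/-- P3a: compactness. -/
theorem ofr_compact {L : Type} [Field L] [NumberField L] [Algebra L Qbar] {p : ℕ}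
    {U : Set (Qbar ≃ₐ[L] Qbar)} (hU : IsClosed U) {g : Qbar ≃ₐ[L] Qbar}
    (h : ∀ n, ∃ u ∈ U, ∀ z : Qbar, z ^ p ^ n = 1 → (g * u) z = z) :
    ∃ u ∈ U, FixesRoots p (g * u) := by
  have hgal := ofr_galois L
  have hcomp : CompactSpace (Qbar ≃ₐ[L] Qbar) := inferInstance
  have hfix : ∀ z : Qbar, IsClosed {u : Qbar ≃ₐ[L] Qbar | (g * u) z = z} := by
    intro z
    have hac : Algebra.IsAlgebraic L Qbar := inferInstance
    have hint : Algebra.IsIntegral L Qbar := inferInstance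
    have h1 : IsOpen (MulAction.stabilizer (Qbar ≃ₐ[L] Qbar) z : Set (Qbar ≃ₐ[L] Qbar)) :=
      stabilizer_isOpen_of_isIntegral z
    have h2 : IsClosed (MulAction.stabilizer (Qbar ≃ₐ[L] Qbar) z : Set (Qbar ≃ₐ[L] Qbar)) :=
      Subgroup.isClosed_of_isOpen _ h1
    have h3 : {u : Qbar ≃ₐ[L] Qbar | (g * u) z = z} =
        (fun u => g * u) ⁻¹' (MulAction.stabilizer (Qbar ≃ₐ[L] Qbar) z : Set (Qbar ≃ₐ[L] Qbar)) := by
      ext u
      rfl
    rw [h3]
    exact h2.preimage (continuous_const_mul g)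
  let C : ℕ → Set (Qbar ≃ₐ[L] Qbar) := fun n =>
    U ∩ {u | ∀ z : Qbar, z ^ p ^ n = 1 → (g * u) z = z}
  have hC : ∀ n, IsClosed (C n) := by
    intro n
    apply hU.inter
    have h4 : {u : Qbar ≃ₐ[L] Qbar | ∀ z : Qbar, z ^ p ^ n = 1 → (g * u) z = z} =
        ⋂ (z : Qbar) (_ : z ^ p ^ n = 1), {u | (g * u) z = z} := by
      ext u
      simp only [Set.mem_iInter, Set.mem_ofPred_eq]
    rw [h4]
    exact isClosed_iInter fun z => isClosed_iInter fun _ => hfix z
  obtain ⟨u, hu⟩ := IsCompact.nonempty_iInter_of_sequence_nonempty_isCompact_isClosed C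
    (by
      rintro n u ⟨hu1, hu2⟩
      refine ⟨hu1, fun z hz => hu2 z ?_⟩
      rw [pow_succ, pow_mul, hz, one_pow])
    (fun n => by
      obtain ⟨u, hu1, hu2⟩ := h n
      exact ⟨u, hu1, hu2⟩)
    (hC 0).isCompact hC
  rw [Set.mem_iInter] at hu
  exact ⟨u, (hu 0).1, fun n z hz => (hu n).2 z hz⟩

/-- P3b: the characteristic polynomials of close matrices are close. -/
theorem ofr_charpoly {L : Type} [NormedField L] [IsUltrametricDist L] {d : ℕ}
    {N N' : Matrix (Fin d) (Fin d) L} (hN : ∀ i j, ‖N i j‖ ≤ 1) {r : ℝ} (hr0 : 0 ≤ r) (hr1 : r ≤ 1)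
    (h : ∀ i j, ‖N i j - N' i j‖ ≤ r) : SmallCoeff (N.charpoly - N'.charpoly) r := by
  classical
  have hN' : ∀ i j, ‖N' i j‖ ≤ 1 := by
    intro i j
    have h1 : N' i j = N i j + -(N i j - N' i j) := by ring
    rw [h1]
    refine (IsUltrametricDist.norm_add_le_max _ _).trans (max_le (hN i j) ?_)
    rw [norm_neg]
    exact (h i j).trans hr1
  have hchar : ∀ (A : Matrix (Fin d) (Fin d) L), (∀ i j, ‖A i j‖ ≤ 1) → ∀ i j,
      SmallCoeff (A.charmatrix i j) 1 := by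
    intro A hA i j
    by_cases hij : i = j
    · subst hij
      rw [Matrix.charmatrix_apply_eq]
      exact smallCoeff_X_sub_C (hA i i)
    · rw [Matrix.charmatrix_apply_ne _ _ _ hij]
      exact smallCoeff_neg (smallCoeff_C zero_le_one (hA i j))
  have hdiff : ∀ i j, SmallCoeff (N.charmatrix i j - N'.charmatrix i j) r := by
    intro i j
    by_cases hij : i = j
    · subst hij
      rw [Matrix.charmatrix_apply_eq, Matrix.charmatrix_apply_eq]
      have h1 : (X - C (N i i) - (X - C (N' i i)) : L[X]) = -C (N i i - N' i i) := by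
        rw [C_sub]
        ring
      rw [h1]
      exact smallCoeff_neg (smallCoeff_C hr0 (h i i))
    · rw [Matrix.charmatrix_apply_ne _ _ _ hij, Matrix.charmatrix_apply_ne _ _ _ hij]
      have h1 : (-C (N i j) - -C (N' i j) : L[X]) = -C (N i j - N' i j) := by
        rw [C_sub]
        ring
      rw [h1]
      exact smallCoeff_neg (smallCoeff_C hr0 (h i j))
  unfold Matrix.charpoly
  rw [Matrix.det_apply, Matrix.det_apply, ← Finset.sum_sub_distrib]
  intro i
  rw [finsetSum_coeff]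
  apply IsUltrametricDist.norm_sum_le_of_forall_le_of_nonneg hr0
  intro σ _
  rw [← smul_sub]
  have h2 : SmallCoeff (∏ i, N.charmatrix (σ i) i - ∏ i, N'.charmatrix (σ i) i) r :=
    smallCoeff_prod_sub _ _ _ hr0 (fun i _ => hchar N hN _ _) (fun i _ => hchar N' hN' _ _)
      fun i _ => hdiff _ _
  rcases Int.units_eq_one_or (Equiv.Perm.sign σ) with h3 | h3
  · rw [h3, one_smul]
    exact h2 i
  · rw [h3, Units.neg_smul, one_smul]
    exact smallCoeff_neg h2 i

/-- P3b: `FarFromRoots` for close matrices. -/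
theorem ofr_far {p : ℕ} [hp : Fact p.Prime] {d D k e f : ℕ} {N N' : Matrix (Fin d) (Fin d) ℂ_[p]}
    (hN : ∀ i j, ‖N i j‖ ≤ 1) {r : ℝ} (hr0 : 0 ≤ r) (hr1 : r ≤ 1) (hrf : r ^ f = ‖(p : ℂ_[p])‖)
    (h : ∀ i j, ‖N i j - N' i j‖ ≤ r) (hfar : FarFromRoots N D k e f) :
    FarFromRoots N' D k e f := by
  classical
  intro μ hμ
  obtain ⟨i, hi⟩ := hfar μ hμ
  refine ⟨i, ?_⟩
  rw [← hrf] at hi ⊢
  have hri : r < ‖(N.charpoly %ₘ ∏ a, (X - C (μ a))).coeff i‖ :=
    lt_of_pow_lt_pow_left₀ f (norm_nonneg _) hi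
  have hμ1 : ∀ a, ‖μ a‖ ≤ 1 := by
    intro a
    obtain ⟨M, hM, -, -, h1⟩ := hμ a
    exact (tu_norm_one (Nat.mul_pos hM (pow_pos hp.out.pos k)) h1).le
  have hA : (∏ a, (X - C (μ a))).Monic := monic_prod_of_monic _ _ fun a _ => monic_X_sub_C _
  have h1 := smallCoeff_modByMonic hA (smallCoeff_prod _ _ fun a _ => smallCoeff_X_sub_C (hμ1 a))
    hr0 (ofr_charpoly hN hr0 hr1 h) i
  rw [sub_modByMonic, coeff_sub] at h1
  set x := (N.charpoly %ₘ ∏ a, (X - C (μ a))).coeff i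
  set y := (N'.charpoly %ₘ ∏ a, (X - C (μ a))).coeff i
  have h2 : r < ‖y‖ := by
    by_contra hcon
    rw [not_lt] at hcon
    have h3 : ‖x‖ ≤ r := by
      have h4 : x = y + (x - y) := by ring
      rw [h4]
      exact (IsUltrametricDist.norm_add_le_max _ _).trans (max_le hcon h1)
    exact absurd hri (not_lt.mpr h3)
  rcases Nat.eq_zero_or_pos f with hf | hf
  · subst hf
    rw [pow_zero, pow_zero] at hi
    exact absurd hi (lt_irrefl _)
  · exact pow_lt_pow_left₀ h2 hr0 hf.ne'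

/-- **P3.** The element `g` may be replaced by an element that fixes all roots of unity of `p`-power
order. -/
theorem ofr_replace {L : Type} [Field L] [NumberField L] [Algebra L Qbar] {p : ℕ}
    [hp : Fact p.Prime] {d D k e f : ℕ} (ρ : (Qbar ≃ₐ[L] Qbar) →* Matrix (Fin d) (Fin d) ℂ_[p])
    (hρ : Continuous ρ) {g : Qbar ≃ₐ[L] Qbar} (hg : ∀ i j, ‖ρ g i j‖ ≤ 1) {r : ℝ} (hr0 : 0 ≤ r)
    (hr1 : r ≤ 1) (hrf : r ^ f = ‖(p : ℂ_[p])‖) (hfar : FarFromRoots (ρ g) D k e f)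
    (h : ∀ n, ∃ u : Qbar ≃ₐ[L] Qbar, (∀ i j, ‖(ρ u - 1) i j‖ ≤ r) ∧
      ∀ z : Qbar, z ^ p ^ n = 1 → (g * u) z = z) :
    ∃ g' : Qbar ≃ₐ[L] Qbar, FixesRoots p g' ∧ FarFromRoots (ρ g') D k e f := by
  classical
  have hU : IsClosed {u : Qbar ≃ₐ[L] Qbar | ∀ i j, ‖(ρ u - 1) i j‖ ≤ r} := by
    have h1 : {u : Qbar ≃ₐ[L] Qbar | ∀ i j, ‖(ρ u - 1) i j‖ ≤ r} =
        ⋂ (i : Fin d) (j : Fin d), {u | ‖(ρ u - 1) i j‖ ≤ r} := by
      ext u
      simp only [Set.mem_iInter, Set.mem_ofPred_eq]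
    rw [h1]
    refine isClosed_iInter fun i => isClosed_iInter fun j => ?_
    apply isClosed_le _ continuous_const
    exact (((hρ.sub continuous_const).matrix_elem i j)).norm
  obtain ⟨u, hu, hfix⟩ := ofr_compact hU (g := g) (p := p) fun n => by
    obtain ⟨u, h1, h2⟩ := h n
    exact ⟨u, h1, h2⟩
  refine ⟨g * u, hfix, ofr_far hg hr0 hr1 hrf (fun i j => ?_) hfar⟩
  have h2 : ρ g i j - ρ (g * u) i j = -(ρ g * (ρ u - 1)) i j := by
    rw [map_mul, mul_sub, mul_one, Matrix.sub_apply, neg_sub]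
  rw [h2, norm_neg, Matrix.mul_apply]
  apply IsUltrametricDist.norm_sum_le_of_forall_le_of_nonneg hr0
  intro l _
  rw [norm_mul]
  calc ‖ρ g i l‖ * ‖(ρ u - 1) l j‖ ≤ 1 * r :=
        mul_le_mul (hg i l) (hu l j) (norm_nonneg _) zero_le_one
    _ = r := one_mul r

end Pool.Agent.EFF
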